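import Pool.Agent.U856.BM.Stm2

/-!
# Project BM, package GB: shallow chords which start on the cut come to the left side
-/

set_option autoImplicit false

open ComplexConjugate

namespace Pool.Agent.U894.BM.GB

open Pool.Agent.U856.BM

/-- the sign of a state -/
noncomputable def sg (i : St) : ℝ := if i.2 then 1 else -1

lemma sg_cases (i : St) : sg i = 1 ∨ sg i = -1 := by
  unfold sg
  by_cases h : i.2 = true
  · left; rw [if_pos h]
  · right; rw [if_neg h]

lemma dtG (d : ℂ) (i : St) (z : ℂ) :
    dt d (G i z) = z.re * dt d (G i 1) + z.im * dt d (G i Complex.I) := by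
  rcases i with ⟨w, τ⟩
  cases τ
  · simp [G, dt]
    ring
  · simp [G, dt]
    ring

lemma crG (d : ℂ) (i : St) (z : ℂ) :
    cr d (G i z) = sg i * (dt d (G i 1) * z.im - dt d (G i Complex.I) * z.re) := by
  rcases i with ⟨w, τ⟩
  cases τ
  · simp [G, dt, cr, sg]
    ring
  · simp [G, dt, cr, sg]
    ring

lemma rs4 (α : ℝ) (i : St) : rs α 4 i = (i.1, !i.2) := by
  have h4 : nS α 4 = Complex.I := rfl
  unfold rs
  rw [h4, Complex.I_sq]
  rcases i with ⟨w, τ⟩
  cases τ <;> simp

lemma sg_not (i : St) : sg (i.1, !i.2) = - sg i := by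
  rcases i with ⟨w, τ⟩
  cases τ <;> simp [sg]

lemma G_not_one (i : St) : G (i.1, !i.2) 1 = G i 1 := by
  rcases i with ⟨w, τ⟩
  cases τ <;> simp [G]

lemma G_not_I (i : St) : G (i.1, !i.2) Complex.I = - G i Complex.I := by
  rcases i with ⟨w, τ⟩
  cases τ <;> simp [G]

lemma dt_neg' (d z : ℂ) : dt d (-z) = - dt d z := by
  simp [dt]
  ring

lemma fin5 (j : Fin 5) : j = 0 ∨ j = 1 ∨ j = 2 ∨ j = 3 ∨ j = 4 := by
  fin_cases j <;> simp

/-- Bounds for the angle. -/
lemma trig (α : ℝ) (h1 : 0.75 < α) (h2 : α < 0.82) :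
    0.62 < Real.sin α ∧ 0.66 < Real.cos α ∧ 0.7 * Real.cos α < Real.sin α := by
  have hs : 0.62 < Real.sin α := by
    have h3 := Real.sin_gt_sub_cube (by linarith : 0 < α)
    have h4 : α ^ 2 ≤ 0.6724 := by nlinarith
    have h5 : α ^ 3 ≤ 0.6724 * α := by
      have : α ^ 3 = α ^ 2 * α := by ring
      rw [this]
      exact mul_le_mul_of_nonneg_right h4 (by linarith)
    linarith
  have hc : 0.66 < Real.cos α := by
    have h3 := Real.one_sub_sq_div_two_le_cos (x := α)
    have h4 : α ^ 2 ≤ 0.6724 := by nlinarith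
    linarith
  refine ⟨hs, hc, ?_⟩
  have h3 := Real.sin_sq_add_cos_sq α
  nlinarith

set_option maxHeartbeats 2000000 in
/-- The package GB. -/
theorem t_GB : S_EX → S_GB := by
  intro _ a b v α h q hR i u _ hY hn hu1 hu2
  obtain ⟨⟨ha1, ha2, hb1, hb2, hv1, hv2, hα1, hα2⟩, -⟩ := hR
  obtain ⟨hs, hc, hsc⟩ := trig α hα1 hα2
  have n0 : nS α 0 = -1 := rfl
  have n1 : nS α 1 = -Complex.I := rfl
  have n2 : nS α 2 = 1 := rfl
  have n3 : nS α 3 = ⟨Real.sin α, Real.cos α⟩ := rfl
  have n4 : nS α 4 = Complex.I := rfl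
  have v0 : vS a b v α 0 = ⟨-a, 0⟩ := rfl
  have v1 : vS a b v α 1 = ⟨-a, -b⟩ := rfl
  have v2 : vS a b v α 2 = ⟨0, -b⟩ := rfl
  have v3 : vS a b v α 3 = ⟨0, -(v / Real.cos α)⟩ := rfl
  have v4 : vS a b v α 4 = ⟨-(v / Real.sin α), 0⟩ := rfl
  have o4 : oS a b v 4 = 0 := rfl
  set d := dd a b with hd
  -- the two coordinates of the direction
  obtain ⟨X, hX⟩ : ∃ X, X = dt d (G i 1) := ⟨_, rfl⟩
  obtain ⟨Y, hYd⟩ : ∃ Y, Y = dt d (G i Complex.I) := ⟨_, rfl⟩
  have D : ∀ z : ℂ, dt d (G i z) = z.re * X + z.im * Y := by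
    intro z
    rw [dtG d i z, hX, hYd]
  have U : ∀ z : ℂ, uu a b i z = sg i * (X * z.im - Y * z.re) := by
    intro z
    unfold uu
    rw [← hd, crG d i z, hX, hYd]
  rw [← hX, ← hYd] at hY
  have D3 : dt d (G i (nS α 3)) = Real.sin α * X + Real.cos α * Y := by
    rw [n3, D]
  rw [D3] at hn
  have hXneg : X < 0 := by
    by_contra hX0
    push Not at hX0
    rw [abs_of_nonneg hX0] at hY
    have h1 := (abs_le.mp hY).1
    have h2 : Real.cos α * (-(0.7 * X)) ≤ Real.cos α * Y :=
      mul_le_mul_of_nonneg_left h1 (by linarith)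
    have h3 : 0.7 * Real.cos α * X ≤ Real.sin α * X := mul_le_mul_of_nonneg_right hsc.le hX0
    linarith
  rw [abs_of_neg hXneg] at hY
  obtain ⟨hY1, hY2⟩ := abs_le.mp hY
  -- the position
  obtain ⟨p, hp⟩ : ∃ p, p = v / Real.cos α := ⟨_, rfl⟩
  obtain ⟨r, hr⟩ : ∃ r, r = v / Real.sin α := ⟨_, rfl⟩
  have hp0 : 0 < p := by rw [hp]; exact div_pos (by linarith) (by linarith)
  have hr0 : 0 < r := by rw [hr]; exact div_pos (by linarith) (by linarith)
  have hp1 : p < 0.17 := by
    rw [hp, div_lt_iff₀ (by linarith)]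
    linarith
  have hPQ : Y * r < -X * p := by
    rw [hp, hr]
    have h1 : Y / Real.sin α < -X / Real.cos α := by
      rw [div_lt_div_iff₀ (by linarith) (by linarith)]
      linarith
    have h2 : Y * (v / Real.sin α) = Y / Real.sin α * v := by ring
    have h3 : -X * (v / Real.cos α) = -X / Real.cos α * v := by ring
    rw [h2, h3]
    exact mul_lt_mul_of_pos_right h1 (by linarith)
  have U3 : uu a b i (vS a b v α 3) = sg i * (-X * p) := by
    rw [v3, U, hp]
    simp only
    ring
  have U4 : uu a b i (vS a b v α 4) = sg i * (Y * r) := by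
    rw [v4, U, hr]
    simp only
    ring
  rw [U3, U4] at hu1 hu2
  have hw : Y * r ≤ sg i * u ∧ sg i * u ≤ -X * p := by
    rcases sg_cases i with hσ | hσ
    · rw [hσ] at hu1 hu2 ⊢
      constructor
      · rcases min_le_iff.mp hu1 with h1 | h1 <;> linarith
      · rcases le_max_iff.mp hu2 with h1 | h1 <;> linarith
    · rw [hσ] at hu1 hu2 ⊢
      constructor
      · rcases le_max_iff.mp hu2 with h1 | h1 <;> linarith
      · rcases min_le_iff.mp hu1 with h1 | h1 <;> linarith
  have D0 : dt d (G i (nS α 0)) = -X := by rw [n0, D]; simp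
  have D1 : dt d (G i (nS α 1)) = -Y := by rw [n1, D]; simp
  have D2 : dt d (G i (nS α 2)) = X := by rw [n2, D]; simp
  have D4 : dt d (G i (nS α 4)) = Y := by rw [n4, D]; simp
  refine ⟨?_, ?_⟩
  · intro k hk
    obtain ⟨-, hk1, hk2⟩ := hk
    rcases fin5 k with rfl | rfl | rfl | rfl | rfl
    · exact Or.inl rfl
    · exact Or.inr rfl
    · exfalso
      have : 0 < dt d (G i (nS α 2)) := hk1
      rw [D2] at this
      linarith
    · exfalso
      have : 0 < dt d (G i (nS α 3)) := hk1
      rw [D3] at this
      linarith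
    · exfalso
      have : 0 < dt d (G i (nS α 3)) := hk2
      rw [D3] at this
      linarith
  · intro j hj
    obtain ⟨hj1, hj2, hj3⟩ := hj
    rcases fin5 j with rfl | rfl | rfl | rfl | rfl
    · exact Or.inl rfl
    · exfalso
      have h1 : 0 < dt d (G i (nS α 1)) := hj1
      rw [D1] at h1
      have U1 : uu a b i (vS a b v α 1) = sg i * (-X * b + Y * a) := by
        rw [v1, U]
        simp only
        ring
      have U2 : uu a b i (vS a b v α (1 + 1)) = sg i * (-X * b) := by
        have e : (1 + 1 : Fin 5) = 2 := rfl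
        rw [e, v2, U]
        simp only
        ring
      rw [U1, U2] at hj2 hj3
      have hya : Y * a < 0 := mul_neg_of_neg_of_pos (by linarith) (by linarith)
      have hlow : -X * b + Y * a < sg i * u := by
        rcases sg_cases i with hσ | hσ
        · rw [hσ] at hj2 hj3 ⊢
          rcases min_lt_iff.mp hj2 with h1 | h1 <;> linarith
        · rw [hσ] at hj2 hj3 ⊢
          rcases lt_max_iff.mp hj3 with h1 | h1 <;> linarith
      have h2 := hlow.trans_le hw.2
      have e1 : 0.7 * X * a ≤ Y * a := mul_le_mul_of_nonneg_right (by linarith) (by linarith)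
      have e2 : 0 < -X * (b - 0.7 * a - p) := mul_pos (by linarith) (by linarith)
      linarith
    · exfalso
      have : 0 < dt d (G i (nS α 2)) := hj1
      rw [D2] at this
      linarith
    · exfalso
      have : 0 < dt d (G i (nS α 3)) := hj1
      rw [D3] at this
      linarith
    · right
      have hYpos : 0 < Y := by
        have h1 : 0 < dt d (G i (nS α 4)) := hj1
        rwa [D4] at h1
      have hu0 : u - 2 * oS a b v 4 * cr d (G i (nS α 4)) = u := by
        rw [o4]; ring
      have D' : ∀ z : ℂ, dt d (G (i.1, !i.2) z) = z.re * X + z.im * (-Y) := by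
        intro z
        rw [dtG d (i.1, !i.2) z, G_not_one, G_not_I, dt_neg', hX, hYd]
      have U' : ∀ z : ℂ, uu a b (i.1, !i.2) z = - sg i * (X * z.im + Y * z.re) := by
        intro z
        unfold uu
        rw [← hd, crG d (i.1, !i.2) z, G_not_one, G_not_I, dt_neg', sg_not, hX, hYd]
        ring
      have D2' : dt d (G (i.1, !i.2) (nS α 2)) = X := by rw [n2, D']; simp
      have D3' : dt d (G (i.1, !i.2) (nS α 3)) = Real.sin α * X - Real.cos α * Y := by
        rw [n3, D']
        ring
      have D4' : dt d (G (i.1, !i.2) (nS α 4)) = -Y := by rw [n4, D']; simp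
      have h3neg : Real.sin α * X - Real.cos α * Y < 0 := by
        have e1 : Real.sin α * X < 0 := mul_neg_of_pos_of_neg (by linarith) hXneg
        have e2 : 0 < Real.cos α * Y := mul_pos (by linarith) hYpos
        linarith
      refine ⟨rfl, ?_, ?_⟩
      · intro k hk
        rw [rs4, hu0] at hk
        obtain ⟨-, hk1, hk2⟩ := hk
        rcases fin5 k with rfl | rfl | rfl | rfl | rfl
        · exact Or.inl rfl
        · exact Or.inr rfl
        · exfalso
          have : 0 < dt d (G (i.1, !i.2) (nS α 2)) := hk1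
          rw [D2'] at this
          linarith
        · exfalso
          have : 0 < dt d (G (i.1, !i.2) (nS α 3)) := hk1
          rw [D3'] at this
          linarith
        · exfalso
          have : 0 < dt d (G (i.1, !i.2) (nS α 3)) := hk2
          rw [D3'] at this
          linarith
      · intro j' hj'
        rw [rs4, hu0] at hj'
        obtain ⟨hj1', hj2', hj3'⟩ := hj'
        rcases fin5 j' with rfl | rfl | rfl | rfl | rfl
        · rfl
        · exfalso
          have U1 : uu a b (i.1, !i.2) (vS a b v α 1) = - sg i * (-X * b - Y * a) := by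
            rw [v1, U']
            simp only
            ring
          have U2 : uu a b (i.1, !i.2) (vS a b v α (1 + 1)) = - sg i * (-X * b) := by
            have e : (1 + 1 : Fin 5) = 2 := rfl
            rw [e, v2, U']
            simp only
            ring
          rw [U1, U2] at hj2' hj3'
          have hya : 0 < Y * a := mul_pos hYpos (by linarith)
          have hlow : -X * b - Y * a < -(sg i * u) := by
            rcases sg_cases i with hσ | hσ
            · rw [hσ] at hj2' hj3' ⊢
              rcases lt_max_iff.mp hj3' with h1 | h1 <;> linarith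
            · rw [hσ] at hj2' hj3' ⊢
              rcases min_lt_iff.mp hj2' with h1 | h1 <;> linarith
          have hYr : 0 < Y * r := mul_pos hYpos hr0
          have e1 : Y * a ≤ 0.7 * -X * a := mul_le_mul_of_nonneg_right (by linarith) (by linarith)
          have e2 : 0 < -X * (b - 0.7 * a) := mul_pos (by linarith) (by linarith)
          linarith
        · exfalso
          have : 0 < dt d (G (i.1, !i.2) (nS α 2)) := hj1'
          rw [D2'] at this
          linarith
        · exfalso
          have : 0 < dt d (G (i.1, !i.2) (nS α 3)) := hj1'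
          rw [D3'] at this
          linarith
        · exfalso
          have : 0 < dt d (G (i.1, !i.2) (nS α 4)) := hj1'
          rw [D4'] at this
          linarith

end Pool.Agent.U894.BM.GB
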